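import Pool.Agent.Q329.DP.Main

/-!
# Dense Graph Partition has no polynomial-time approximation scheme unless P = NP

The definitions used in the statement are in `Pool/Agent/Q329/DP/Defs.lean`:

* `edgesIn G P`: the number of edges inside `P`; `density G lab`: the density of the partition into
  the sets of vertices with equal label;
* `Approx ε A`: the algorithm `A` is a polynomial-time algorithm which writes, for every graph, a
  partition of density at least `1 - ε` times the maximum.

`InNP`, `InP` (from `Pool/Agent/NPC`) are the classes NP and P of languages.

Proof. If every edge of a graph with `N` vertices is in at most one triangle, then a set of `k`
vertices has at most `k ^ 2 / 4` edges unless it is a triangle. So the density of a partition is at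
most `N / 3 - U / 12`, where `U` is the number of vertices outside the parts that are triangles. By
the PCP theorem it is NP-hard to tell the satisfiable 3CNF formulas with boundedly many occurrences
of every variable from those with a positive fraction of unsatisfied clauses for every assignment.
A formula is mapped to such a graph: three copies of a graph with rings of `4 k` cores and `4 k` tips
for a variable with `k` occurrences, a clause vertex and three private vertices for every clause; the
clause vertex, a private vertex and a tip form a triangle, and the three copies of a vertex outside
the rings form a triangle, which collects the vertices that are not used. So satisfiable formulas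
have partitions into triangles, and a partition with few uncovered vertices gives an assignment with
few unsatisfied clauses.
-/

set_option autoImplicit false

namespace Pool.Agent.Results.MP_0b8c1e_lc.NoPTAS

open Pool.Agent.Q329.DP Pool.Agent.NPC

/-- There is a constant `ε > 0` such that, unless P = NP, no polynomial-time algorithm writes for
every graph a partition of density at least `(1 - ε)` times the maximum density. -/
theorem result : ∃ ε : ℝ, 0 < ε ∧
    ((∃ A : List Bool → List Bool, Approx ε A) → ∀ L : Set (List Bool), InNP L → InP L) :=
  ⟨1 / (4 * KK : ℝ), by unfold KK; positivity, fun ⟨_, hA⟩ L hL => p_eq_np hA L hL⟩

end Pool.Agent.Results.MP_0b8c1e_lc.NoPTAS
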